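import Pool.Agent.D0H73.SC.Coarse

/-!
# The coarsest supercharacter theory of `U_n(F_q)` containing the single-box characters

The answer to Q1 is yes, and so the answer to Q2 is: the supercharacter theory of André.

The definitions used in the statement:
* `U n F` (the upper unitriangular matrices, a subgroup of `GL_n(F)`), `nil n F` (the strictly upper
  triangular matrices), `lg g = g - 1`, `bi u v y = u y v`, `orb lam = U lam U`, `box i j a` (the
  functional `y ↦ a y_{ij}`): file `Pool/Agent/D0H73/SC/Basic.lean`;
* `IrrC G` (the irreducible complex characters): file `Pool/Agent/D0H73/SC/Chars.lean`;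
* `SCT G` (supercharacter theories), `SCT.Contains`, `SCT.Coarser`, `orbSum`, `IsSupercharacter`,
  `IsAndre`, `IsBoxChar`, `ContainsBoxes`: file `Pool/Agent/D0H73/SC/Theory.lean`;
* `IsCoarsest`: file `Pool/Agent/D0H73/SC/Coarse.lean`.

Idea of the proof. The functions which are constant on the superclasses of any theory that contains
the single-box characters include these characters, so the superclasses are contained in the sets
on which all the single-box characters are constant. By the formula for the values of the orbit sums
at matrices with at most one nonzero entry in each row and column, the single-box characters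
separate the superclasses `{g : g - 1 ∈ U (x - 1) U}`.
-/

set_option autoImplicit false

namespace Pool.Agent.Results.MP_1f99fc_al.AndreCoarsest

open Pool.Agent.D0H73.SC

/-- Let `F` be a finite field, `n` a natural number and `th` a nontrivial additive character of `F`.

* For every box `(i, j)`, `i < j`, and every label `a ≠ 0` there is exactly one irreducible character
  of the group `U` of upper unitriangular `n × n` matrices over `F` which is a positive multiple of
  the orbit sum `g ↦ ∑ th (μ (g - 1))`, `μ` in `U λ U`, of the functional `λ (y) = a y_{ij}`.
* The supercharacter theory of André exists.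
* A supercharacter theory of `U` is the theory of André if and only if it is the coarsest
  supercharacter theory of `U` which contains all the irreducible characters of the single boxes. -/
theorem result (n : ℕ) (F : Type) [Field F] [Finite F] (th : AddChar F ℂ) (hth : th ≠ 1) :
    (∀ (i j : Fin n) (a : F), i < j → a ≠ 0 → ∃! chi : IrrC (U n F), IsBoxChar th i j a chi) ∧
    (∃ A : SCT (U n F), IsAndre th A) ∧
    ∀ A : SCT (U n F), IsAndre th A ↔ IsCoarsest th A := by
  refine ⟨fun i j a _ _ => ?_, ⟨andre hth, isAndre hth⟩, fun A => isAndre_iff hth A⟩
  obtain ⟨chi, hchi⟩ := exists_boxChar hth i j a (n := n)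
  exact ⟨chi, hchi, fun psi hpsi => box_unique hth i j a psi chi (Phi_boxChar hth i j a psi hpsi)
    (Phi_boxChar hth i j a chi hchi)⟩

end Pool.Agent.Results.MP_1f99fc_al.AndreCoarsest
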